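import Pool.Agent.H252Z.Sel.Defs

set_option autoImplicit false

namespace Pool.Agent.H252Z.Sel

universe v

section Language

variable {P : Type} [Preorder P]

/-- downward closed -/
def Down (φ : Set P) : Prop := ∀ ⦃p q : P⦄, q ≤ p → p ∈ φ → q ∈ φ

lemma mem_fnot {φ : Set P} {p : P} : p ∈ fnot φ ↔ ∀ q ≤ p, q ∉ φ := Iff.rfl
omit [Preorder P] in
lemma mem_fand {φ ψ : Set P} {p : P} : p ∈ fand φ ψ ↔ p ∈ φ ∧ p ∈ ψ := Iff.rfl
omit [Preorder P] in
lemma mem_fall {ι : Sort v} {φ : ι → Set P} {p : P} : p ∈ fall φ ↔ ∀ i, p ∈ φ i := Iff.rfl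
omit [Preorder P] in
lemma mem_fground {h : Prop} {p : P} : p ∈ (fground h : Set P) ↔ h := Iff.rfl

lemma mem_fex {ι : Sort v} {φ : ι → Set P} {p : P} :
    p ∈ fex φ ↔ ∀ q ≤ p, ∃ r ≤ q, ∃ i, r ∈ φ i := by
  simp only [fex, mem_fnot, mem_fall, not_forall, not_not]
  constructor
  · intro h q hq
    obtain ⟨i, r, hr, h'⟩ := h q hq
    exact ⟨r, hr, i, h'⟩
  · intro h q hq
    obtain ⟨r, hr, i, h'⟩ := h q hq
    exact ⟨i, r, hr, h'⟩

lemma mem_fimp {φ ψ : Set P} {p : P} :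
    p ∈ fimp φ ψ ↔ ∀ q ≤ p, q ∈ φ → ∃ r ≤ q, r ∈ ψ := by
  simp only [fimp, mem_fnot, mem_fand, not_and, not_forall, not_not]
  constructor
  · intro h q hq h1
    obtain ⟨r, hr, h'⟩ := h q hq h1
    exact ⟨r, hr, h'⟩
  · intro h q hq h1
    obtain ⟨r, hr, h'⟩ := h q hq h1
    exact ⟨r, hr, h'⟩

lemma fimp_intro {φ ψ : Set P} {p : P} (h : ∀ q ≤ p, q ∈ φ → q ∈ ψ) : p ∈ fimp φ ψ :=
  mem_fimp.2 fun q hq h1 => ⟨q, le_rfl, h q hq h1⟩

lemma forr_left {φ ψ : Set P} (hφ : Down φ) {p : P} (h : p ∈ φ) : p ∈ forr φ ψ :=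
  fun q hq h1 => h1.1 q le_rfl (hφ hq h)

lemma forr_right {φ ψ : Set P} (hψ : Down ψ) {p : P} (h : p ∈ ψ) : p ∈ forr φ ψ :=
  fun q hq h1 => h1.2 q le_rfl (hψ hq h)

lemma down_fnot (φ : Set P) : Down (fnot φ) := fun _ _ hq h r hr => h r (hr.trans hq)
lemma down_fex {ι : Sort v} (φ : ι → Set P) : Down (fex φ) := down_fnot _
lemma down_fimp (φ ψ : Set P) : Down (fimp φ ψ) := down_fnot _
lemma down_fand {φ ψ : Set P} (h1 : Down φ) (h2 : Down ψ) : Down (fand φ ψ) :=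
  fun _ _ hq h => ⟨h1 hq h.1, h2 hq h.2⟩
lemma down_fall {ι : Sort v} {φ : ι → Set P} (h : ∀ i, Down (φ i)) : Down (fall φ) :=
  fun _ _ hq h' i => h i hq (h' i)
lemma down_meets (N : Set P) : Down (meets N) := fun _ _ hq h r hr => h r (hr.trans hq)
lemma down_mem (x : ℕ → Set P) (n : ℕ) : Down (mem x n) := down_meets _
lemma down_fInf (φ : ℕ → Set P) : Down (fInf φ) := down_fall fun _ => down_fex _
lemma down_fFin (φ : ℕ → Set P) : Down (fFin φ) := down_fnot _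
lemma down_feq (x y : ℕ → Set P) : Down (feq x y) :=
  down_fall fun _ => down_fand (down_fimp _ _) (down_fimp _ _)
lemma down_inFam (F : (ℕ → Set P) → Set P) (x : ℕ → Set P) : Down (inFam F x) := down_fex _
lemma down_IsFF (F : (ℕ → Set P) → Set P) (h : List ((ℕ → Set P) × Bool)) : Down (IsFF F h) :=
  down_fand (down_fall fun _ => down_fall fun _ => down_inFam _ _)
    (down_fall fun _ => down_fall fun _ => down_fall fun _ => down_fall fun _ => down_fimp _ _)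
lemma down_Extends (h' h : List ((ℕ → Set P) × Bool)) : Down (Extends h' h) :=
  down_fall fun _ => down_fall fun _ => down_fex _
lemma down_comb (h : List ((ℕ → Set P) × Bool)) (n : ℕ) : Down (comb h n) := by
  refine down_fall fun a => down_fall fun _ => ?_
  split_ifs
  · exact down_fnot _
  · exact down_mem _ _
lemma down_InFil (F : (ℕ → Set P) → Set P) (x : ℕ → Set P) : Down (InFil F x) :=
  down_fand (down_fInf _) (down_fall fun _ => down_fimp _ _)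

lemma meets_of_dense {N : Set P} {p : P} (h : ∀ q ≤ p, ∃ r ≤ q, r ∈ meets N) : p ∈ meets N := by
  intro q hq
  obtain ⟨r, hr, h1⟩ := h q hq
  obtain ⟨r', hr', h2⟩ := h1 r le_rfl
  exact ⟨r', hr'.trans hr, h2⟩

lemma meets_of_mem {N : Set P} {p : P} (h : p ∈ N) : p ∈ meets N :=
  fun q hq => ⟨q, le_rfl, p, h, hq⟩

lemma exists_of_meets {N : Set P} (hN : Down N) {p : P} (h : p ∈ meets N) :
    ∃ r ≤ p, r ∈ N := by
  obtain ⟨r, hr, s, hs, h1⟩ := h p le_rfl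
  exact ⟨r, hr, hN h1 hs⟩

lemma mem_fInf {φ : ℕ → Set P} {p : P} :
    p ∈ fInf φ ↔ ∀ N, ∀ q ≤ p, ∃ r ≤ q, ∃ n, N ≤ n ∧ r ∈ φ n := by
  simp only [fInf, mem_fall, mem_fex, mem_fand, mem_fground]

lemma mem_fFin {φ : ℕ → Set P} {p : P} :
    p ∈ fFin φ ↔ ∀ q ≤ p, ∃ r ≤ q, ∃ N, ∀ r' ≤ r, ∀ n, N ≤ n → r' ∉ φ n := by
  simp only [fFin, mem_fnot, mem_fInf]
  constructor
  · intro h q hq
    have := h q hq
    push Not at this
    obtain ⟨N, r, hr, h1⟩ := this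
    exact ⟨r, hr, N, h1⟩
  · intro h q hq h1
    obtain ⟨r, hr, N, h2⟩ := h q hq
    obtain ⟨r', hr', n, hn, h3⟩ := h1 N r hr
    exact h2 r' hr' n hn h3

lemma fFin_intro {φ : ℕ → Set P} {p : P} (N : ℕ) (h : ∀ r ≤ p, ∀ n, N ≤ n → r ∉ φ n) :
    p ∈ fFin φ := mem_fFin.2 fun q hq => ⟨q, le_rfl, N, fun r hr => h r (hr.trans hq)⟩

lemma feq_refl (x : ℕ → Set P) (p : P) : p ∈ feq x x :=
  fun _ => ⟨fimp_intro fun _ _ h => h, fimp_intro fun _ _ h => h⟩

lemma feq_symm {x y : ℕ → Set P} {p : P} (h : p ∈ feq x y) : p ∈ feq y x :=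
  fun n => ⟨(h n).2, (h n).1⟩

lemma feq_mem {x y : ℕ → Set P} {p : P} (h : p ∈ feq x y) {n : ℕ} (h1 : p ∈ mem x n) :
    p ∈ mem y n :=
  meets_of_dense fun q hq => mem_fimp.1 (h n).1 q hq (down_mem x n hq h1)

lemma feq_trans {x y z : ℕ → Set P} {p : P} (h : p ∈ feq x y) (h' : p ∈ feq y z) :
    p ∈ feq x z := fun n =>
  ⟨fimp_intro fun _ hq h1 => feq_mem (down_feq _ _ hq h') (feq_mem (down_feq _ _ hq h) h1),
   fimp_intro fun _ hq h1 =>
    feq_mem (feq_symm (down_feq _ _ hq h)) (feq_mem (feq_symm (down_feq _ _ hq h')) h1)⟩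

end Language

namespace Cond

variable {I : Type}

lemma le_def {p q : Cond I} : q ≤ p ↔ p.s ⊆ q.s := Iff.rfl

lemma not_both {p : Cond I} {i : I} {b : Bool} (h : (i, b) ∈ p.s) : (i, !b) ∉ p.s := by
  cases b
  · exact fun h' => p.fn i h' h
  · exact p.fn i h

open Classical in
lemma exists_union (p q : Cond I) (h : ∀ i b, (i, b) ∈ p.s → (i, !b) ∉ q.s) :
    ∃ u : Cond I, u ≤ p ∧ u ≤ q ∧ ∀ x ∈ u.s, x ∈ p.s ∨ x ∈ q.s := by
  refine ⟨⟨p.s ∪ q.s, ?_⟩, Finset.subset_union_left, Finset.subset_union_right,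
    fun x hx => Finset.mem_union.1 hx⟩
  intro i h1 h2
  rcases Finset.mem_union.1 h1 with h1 | h1 <;> rcases Finset.mem_union.1 h2 with h2 | h2
  · exact p.fn i h1 h2
  · exact h i true h1 h2
  · exact h i false h2 h1
  · exact q.fn i h1 h2

open Classical in
lemma exists_ext (p : Cond I) (i : I) (b : Bool) (h : (i, !b) ∉ p.s) :
    ∃ r : Cond I, r ≤ p ∧ (i, b) ∈ r.s ∧ ∀ x ∈ r.s, x ∈ p.s ∨ x = (i, b) := by
  obtain ⟨u, h1, h2, h3⟩ := exists_union p ⟨{(i, b)}, by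
    intro j h1 h2
    simp only [Finset.mem_singleton, Prod.mk.injEq] at h1 h2
    exact absurd (h1.2.trans h2.2.symm) (by simp)⟩ (by
    intro j c h1 h2
    simp only [Finset.mem_singleton, Prod.mk.injEq] at h2
    obtain ⟨rfl, rfl⟩ := h2
    exact h (by simpa using h1))
  refine ⟨u, h1, h2 (Finset.mem_singleton_self _), fun x hx => ?_⟩
  rcases h3 x hx with h4 | h4
  · exact Or.inl h4
  · exact Or.inr (Finset.mem_singleton.1 h4)

lemma exists_decide (p : Cond I) (i : I) : ∃ r : Cond I, r ≤ p ∧ ∃ b, (i, b) ∈ r.s := by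
  by_cases h : (i, false) ∈ p.s
  · exact ⟨p, le_rfl, false, h⟩
  · obtain ⟨r, h1, h2, -⟩ := exists_ext p i true h
    exact ⟨r, h1, true, h2⟩

open Classical in
/-- restriction to a set of coordinates -/
noncomputable def res (S : Set I) (p : Cond I) : Cond I :=
  ⟨p.s.filter fun x => x.1 ∈ S, fun i h1 h2 =>
    p.fn i (Finset.mem_filter.1 h1).1 (Finset.mem_filter.1 h2).1⟩

lemma mem_res {S : Set I} {p : Cond I} {x : I × Bool} : x ∈ (res S p).s ↔ x ∈ p.s ∧ x.1 ∈ S := by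
  classical
  simp [res]

lemma le_res (S : Set I) (p : Cond I) : p ≤ res S p := fun _ hx => (mem_res.1 hx).1

lemma res_mono (S : Set I) {p q : Cond I} (h : q ≤ p) : res S q ≤ res S p :=
  fun _ hx => mem_res.2 ⟨h (mem_res.1 hx).1, (mem_res.1 hx).2⟩

lemma res_le_res {S S' : Set I} (h : S ⊆ S') (p : Cond I) : res S' p ≤ res S p :=
  fun _ hx => mem_res.2 ⟨(mem_res.1 hx).1, h (mem_res.1 hx).2⟩

lemma res_le_of {S : Set I} {p s : Cond I} (h : p ≤ s) (hs : ∀ x ∈ s.s, x.1 ∈ S) :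
    res S p ≤ s := fun x hx => mem_res.2 ⟨h hx, hs x hx⟩

lemma amalg {S : Set I} {p q : Cond I} (h : q ≤ res S p) :
    ∃ u : Cond I, u ≤ p ∧ u ≤ res S q ∧ (∀ x ∈ u.s, x ∈ p.s ∨ x ∈ (res S q).s) ∧
      res S q ≤ res S u := by
  obtain ⟨u, h1, h2, h3⟩ := exists_union p (res S q) (by
    intro i b h1 h2
    rw [mem_res] at h2
    exact not_both (h (mem_res.2 ⟨h1, h2.2⟩)) h2.1)
  refine ⟨u, h1, h2, h3, fun x hx => ?_⟩
  rw [mem_res] at hx
  rcases h3 x hx.1 with h4 | h4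
  · exact mem_res.2 ⟨h (mem_res.2 ⟨h4, hx.2⟩), hx.2⟩
  · exact h4

end Cond

open Cond

variable {I : Type}

/-- the sentence depends only on the coordinates in `S` -/
def Supp (S : Set I) (φ : Set (Cond I)) : Prop := ∀ p ∈ φ, res S p ∈ φ

lemma Supp.mono {S S' : Set I} {φ : Set (Cond I)} (hd : Down φ) (h : S ⊆ S') (hs : Supp S φ) :
    Supp S' φ := fun p hp => hd (res_le_res h p) (hs p hp)

lemma supp_imp {S : Set I} {φ ψ : Set (Cond I)} (dφ : Down φ) (dψ : Down ψ) (sφ : Supp S φ)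
    (sψ : Supp S ψ) : Supp S {p | ∀ q ≤ p, q ∈ φ → q ∈ ψ} := by
  intro p hp q hq h1
  obtain ⟨u, u1, u2, -, u4⟩ := amalg hq
  exact dψ ((le_res S q).trans u4) (sψ u (hp u u1 (dφ u2 (sφ q h1))))

lemma supp_dense {S : Set I} {φ : Set (Cond I)} (dφ : Down φ) (sφ : Supp S φ) :
    Supp S {p | ∀ q ≤ p, ∃ r ≤ q, r ∈ φ} := by
  intro p hp q hq
  obtain ⟨u, u1, u2, -, -⟩ := amalg hq
  obtain ⟨r, hr, h1⟩ := hp u u1
  obtain ⟨u', v1, v2, -, -⟩ := amalg (hr.trans u2)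
  exact ⟨u', v1, dφ v2 (sφ r h1)⟩

lemma supp_meets {S : Set I} {N : Set (Cond I)} (hN : ∀ s ∈ N, ∀ x ∈ s.s, x.1 ∈ S) :
    Supp S (meets N) := by
  refine supp_dense (φ := {r | ∃ s ∈ N, r ≤ s}) ?_ ?_
  · rintro p q hq ⟨s, hs, h⟩
    exact ⟨s, hs, hq.trans h⟩
  · rintro p ⟨s, hs, h⟩
    exact ⟨s, hs, res_le_of h (hN s hs)⟩

lemma countable_conds {S : Set I} (hS : S.Countable) :
    {r : Cond I | ∀ x ∈ r.s, x.1 ∈ S}.Countable := by
  have h1 : (S ×ˢ (Set.univ : Set Bool)).Countable := hS.prod Set.countable_univ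
  have h2 := Set.countable_setOf_finite_subset h1
  refine Set.countable_of_injective_of_countable_image (f := fun r : Cond I => (r.s : Set (I × Bool)))
    ?_ (h2.mono ?_)
  · intro a _ b _ hab
    cases a
    cases b
    simpa using hab
  · rintro _ ⟨r, hr, rfl⟩
    exact ⟨Finset.finite_toSet _, fun x hx => ⟨hr x hx, trivial⟩⟩

/-- every name for a truth value has an equivalent countable name -/
lemma exists_countable_name (N : Set (Cond I)) :
    ∃ N' : Set (Cond I), N'.Countable ∧ meets N' = meets N := by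
  classical
  have hc : ∀ r : Cond I, ∃ t : Set (Cond I), t.Finite ∧ t ⊆ N ∧
      ((∃ s ∈ N, ∃ u, u ≤ r ∧ u ≤ s) → ∃ s ∈ t, ∃ u, u ≤ r ∧ u ≤ s) := by
    intro r
    by_cases h : ∃ s ∈ N, ∃ u, u ≤ r ∧ u ≤ s
    · obtain ⟨s, hs, u, hu⟩ := h
      exact ⟨{s}, Set.finite_singleton _, by simpa using hs, fun _ => ⟨s, rfl, u, hu⟩⟩
    · exact ⟨∅, Set.finite_empty, Set.empty_subset _, fun h' => absurd h' h⟩
  choose t ht1 ht2 ht3 using hc
  let step : Set I → Set I := fun S =>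
    S ∪ ⋃ r ∈ {r : Cond I | ∀ x ∈ r.s, x.1 ∈ S}, ⋃ s ∈ t r, Prod.fst '' (s.s : Set (I × Bool))
  let SS : ℕ → Set I := fun n => step^[n] ∅
  have hsucc : ∀ n, SS (n + 1) = step (SS n) := fun n => Function.iterate_succ_apply' _ _ _
  have hcount : ∀ n, (SS n).Countable := by
    intro n
    induction n with
    | zero => exact Set.countable_empty
    | succ n ih =>
      rw [hsucc]
      refine ih.union ((countable_conds ih).biUnion fun r _ => (ht1 r).countable.biUnion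
        fun s _ => ((Finset.finite_toSet _).image _).countable)
  have hmono : Monotone SS := monotone_nat_of_le_succ fun n => by
    rw [hsucc]; exact Set.subset_union_left
  let S : Set I := ⋃ n, SS n
  have hS : S.Countable := Set.countable_iUnion hcount
  have hfin : ∀ r : Cond I, (∀ x ∈ r.s, x.1 ∈ S) → ∃ n, ∀ x ∈ r.s, x.1 ∈ SS n := by
    intro r hr
    have : ∀ x ∈ r.s, ∃ n, x.1 ∈ SS n := fun x hx => Set.mem_iUnion.1 (hr x hx)
    choose! g hg using this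
    exact ⟨r.s.sup g, fun x hx => hmono (Finset.le_sup hx) (hg x hx)⟩
  refine ⟨⋃ r ∈ {r : Cond I | ∀ x ∈ r.s, x.1 ∈ S}, t r,
    (countable_conds hS).biUnion fun r _ => (ht1 r).countable, ?_⟩
  ext p
  constructor
  · intro h q hq
    obtain ⟨r, hr, s, hs, h1⟩ := h q hq
    simp only [Set.mem_iUnion] at hs
    obtain ⟨r', -, hs⟩ := hs
    exact ⟨r, hr, s, ht2 r' hs, h1⟩
  · intro h q hq
    obtain ⟨r, hr, s, hs, h1⟩ := h q hq
    have hres : ∀ x ∈ (res S r).s, x.1 ∈ S := fun x hx => (mem_res.1 hx).2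
    obtain ⟨s', hs', u, u1, u2⟩ := ht3 (res S r) ⟨s, hs, r, le_res S r, h1⟩
    obtain ⟨n, hn⟩ := hfin _ hres
    have hs'S : ∀ x ∈ s'.s, x.1 ∈ S := by
      intro x hx
      refine Set.mem_iUnion.2 ⟨n + 1, ?_⟩
      rw [hsucc]
      refine Or.inr ?_
      simp only [Set.mem_iUnion]
      exact ⟨res S r, hn, s', hs', x, hx, rfl⟩
    obtain ⟨w, w1, w2, -, -⟩ := amalg u1
    refine ⟨w, w1.trans hr, s', ?_, w2.trans (res_le_of u2 hs'S)⟩
    simp only [Set.mem_iUnion]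
    exact ⟨res S r, hres, hs'⟩

end Pool.Agent.H252Z.Sel
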