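import Pool.Agent.H252Z.Sel.Basic

set_option autoImplicit false

namespace Pool.Agent.H252Z.Sel

open Cond

variable {Λ : Type} [LinearOrder Λ]

/-- conditions -/
abbrev PP (Λ : Type) : Type := Cond (Λ × ℕ)

/-- coordinates below `α` -/
def bel (α : Λ) : Set (Λ × ℕ) := {i | i.1 < α}

lemma bel_mono {α β : Λ} (h : β ≤ α) : bel β ⊆ bel α := fun _ hi => lt_of_lt_of_le hi h

/-- consistent finite sets of pairs -/
def Cons (σ : Finset (Λ × Bool)) : Prop := ∀ a ∈ σ, ∀ b ∈ σ, a.1 = b.1 → a.2 = b.2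

variable (T : Λ → ℕ → ℕ → Set (PP Λ))

/-- the task at stage `α` -/
def Rt (α : Λ) (j k : ℕ) : Set (PP Λ) := {p | res (bel α) p ∈ meets (T α j k)}

lemma down_Rt (α : Λ) (j k : ℕ) : Down (Rt T α j k) :=
  fun _ _ hq h => down_meets _ (res_mono _ hq) h

lemma supp_Rt (α : Λ) (j k : ℕ) : Supp (bel α) (Rt T α j k) := fun p hp =>
  down_meets _ (res_le_of le_rfl (fun _ hx => (mem_res.1 hx).2)) hp

/-- the strengthened Boolean combination -/
def Zb (b : Λ → ℕ → Set (PP Λ)) (σ : Finset (Λ × Bool)) (k : ℕ) : Set (PP Λ) :=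
  {p | ∀ a ∈ σ, p ∈ b a.1 k ∧ ((a.1, 2 * k + 1), a.2) ∈ p.s}

/-- the task is compatible with the sets constructed so far -/
def Hyp (α : Λ) (b : Λ → ℕ → Set (PP Λ)) : Set (PP Λ) :=
  {p | ∀ σ : Finset (Λ × Bool), Cons σ → (∀ a ∈ σ, a.1 < α) → ∀ m N : ℕ, ∀ q ≤ p, ∃ r ≤ q,
    r ∈ {r | ∃ k, N ≤ k ∧ r ∈ Zb b σ k ∧ ∀ j ≤ m, r ∈ Rt T α j k}}

lemma down_Hyp (α : Λ) (b : Λ → ℕ → Set (PP Λ)) : Down (Hyp T α b) :=
  fun _ _ hq h σ h1 h2 m N r hr => h σ h1 h2 m N r (hr.trans hq)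

/-- one step of the recursion -/
def step (α : Λ) (b : Λ → ℕ → Set (PP Λ)) (k : ℕ) : Set (PP Λ) :=
  {p | ((α, 2 * k), true) ∈ p.s ∧ ∀ j < k, ∀ q ≤ p,
    q ∈ {q : PP Λ | ((α, 2 * j), true) ∈ q.s ∧ q ∈ Hyp T α b} → q ∈ Rt T α j k}

lemma down_step (α : Λ) (b : Λ → ℕ → Set (PP Λ)) (k : ℕ) : Down (step T α b k) :=
  fun _ _ hq h => ⟨hq h.1, fun j hj r hr => h.2 j hj r (hr.trans hq)⟩

lemma step_congr (α : Λ) (b b' : Λ → ℕ → Set (PP Λ)) (h : ∀ β < α, b β = b' β) :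
    step T α b = step T α b' := by
  have hz : ∀ σ : Finset (Λ × Bool), (∀ a ∈ σ, a.1 < α) → Zb b σ = Zb b' σ := by
    intro σ hσ
    funext k
    ext p
    simp only [Zb, Set.mem_setOf_eq]
    refine forall₂_congr fun a ha => ?_
    rw [h _ (hσ a ha)]
  have : Hyp T α b = Hyp T α b' := by
    ext p
    simp only [Hyp, Set.mem_setOf_eq]
    refine forall₃_congr fun σ _ hσ => ?_
    rw [hz σ hσ]
  funext k
  simp only [step, this]

lemma exists_B [WellFoundedLT Λ] : ∃ B : Λ → ℕ → Set (PP Λ), ∀ α, B α = step T α B := by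
  classical
  let B : Λ → ℕ → Set (PP Λ) := (wellFounded_lt (α := Λ)).fix fun α IH =>
    step T α (fun β => if h : β < α then IH β h else fun _ => ∅)
  refine ⟨B, fun α => ?_⟩
  have : B α = step T α (fun β => if _h : β < α then B β else fun _ => ∅) :=
    WellFounded.fix_eq _ _ _
  rw [this]
  apply step_congr
  intro β hβ
  simp [hβ]

variable {T} {B : Λ → ℕ → Set (PP Λ)} (hB : ∀ α, B α = step T α B)
include hB

lemma down_B (α : Λ) (k : ℕ) : Down (B α k) := by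
  rw [hB]
  exact down_step T α B k

lemma down_Z (σ : Finset (Λ × Bool)) (k : ℕ) : Down (Zb B σ k) :=
  fun _ _ hq h a ha => ⟨down_B hB _ _ hq (h a ha).1, hq (h a ha).2⟩

lemma B_bit {α : Λ} {k : ℕ} {p : PP Λ} (h : p ∈ B α k) : ((α, 2 * k), true) ∈ p.s := by
  rw [hB] at h
  exact h.1

lemma supp_B [WellFoundedLT Λ] (β : Λ) : ∀ α, β < α → ∀ k, Supp (bel α) (B β k) := by
  induction β using (wellFounded_lt (α := Λ)).induction with
  | _ β ih =>
  intro α hα k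
  have hH : Supp (bel β) (Hyp T β B) := by
    intro p hp σ h1 h2 m N
    refine supp_dense (φ := {r | ∃ k, N ≤ k ∧ r ∈ Zb B σ k ∧ ∀ j ≤ m, r ∈ Rt T β j k}) ?_ ?_ p
      (hp σ h1 h2 m N)
    · rintro p q hq ⟨k, hk, h3, h4⟩
      exact ⟨k, hk, down_Z hB σ k hq h3, fun j hj => down_Rt T β j k hq (h4 j hj)⟩
    · rintro p ⟨k, hk, h3, h4⟩
      exact ⟨k, hk, fun a ha => ⟨ih a.1 (h2 a ha) β (h2 a ha) k p (h3 a ha).1,
        mem_res.2 ⟨(h3 a ha).2, h2 a ha⟩⟩, fun j hj => supp_Rt T β j k p (h4 j hj)⟩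
  have hH' := hH.mono (down_Hyp T β B) (bel_mono hα.le)
  rw [hB]
  intro p hp
  refine ⟨mem_res.2 ⟨hp.1, hα⟩, fun j hj => ?_⟩
  refine supp_imp (φ := {q : PP Λ | ((β, 2 * j), true) ∈ q.s ∧ q ∈ Hyp T β B}) ?_
    (down_Rt T β j k) ?_ ((supp_Rt T β j k).mono (down_Rt T β j k) (bel_mono hα.le)) p (hp.2 j hj)
  · exact fun p q hq h => ⟨hq h.1, down_Hyp T β B hq h.2⟩
  · exact fun p h => ⟨mem_res.2 ⟨h.1, hα⟩, hH' p h.2⟩

lemma supp_Z [WellFoundedLT Λ] (σ : Finset (Λ × Bool)) (α : Λ) (h : ∀ a ∈ σ, a.1 < α) (k : ℕ) :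
    Supp (bel α) (Zb B σ k) := fun p hp a ha =>
  ⟨supp_B hB a.1 α (h a ha) k p (hp a ha).1, mem_res.2 ⟨(hp a ha).2, h a ha⟩⟩

omit hB in
lemma exists_bound (p : PP Λ) : ∃ m : ℕ, ∀ x ∈ p.s, x.1.2 < m :=
  ⟨p.s.sup (fun x => x.1.2) + 1, fun _ hx =>
    Nat.lt_succ_of_le (Finset.le_sup (f := fun x : (Λ × ℕ) × Bool => x.1.2) hx)⟩

omit hB in
lemma fill (α : Λ) (u : PP Λ) (k : ℕ) : ∃ r ≤ u,
    (∀ j < k, ∀ q ≤ r, ((α, 2 * j), true) ∈ q.s → ((α, 2 * j), true) ∈ u.s) ∧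
    ∀ x ∈ r.s, x ∈ u.s ∨ (x.2 = false ∧ x.1.2 < 2 * k) := by
  induction k with
  | zero => exact ⟨u, le_rfl, fun j hj => absurd hj (Nat.not_lt_zero _), fun x hx => Or.inl hx⟩
  | succ k ih =>
    obtain ⟨r, hr, h1, h2⟩ := ih
    by_cases h : ((α, 2 * k), true) ∈ u.s
    · refine ⟨r, hr, fun j hj q hq h3 => ?_, fun x hx => ?_⟩
      · rcases Nat.lt_succ_iff_lt_or_eq.1 hj with hj | rfl
        · exact h1 j hj q hq h3
        · exact h
      · rcases h2 x hx with h4 | h4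
        · exact Or.inl h4
        · exact Or.inr ⟨h4.1, by omega⟩
    · obtain ⟨r', hr', h5, h6⟩ := exists_ext r (α, 2 * k) false (by
        intro h7
        rcases h2 _ h7 with h8 | h8
        · exact h h8
        · simp at h8)
      refine ⟨r', hr'.trans hr, fun j hj q hq h3 => ?_, fun x hx => ?_⟩
      · rcases Nat.lt_succ_iff_lt_or_eq.1 hj with hj | rfl
        · exact h1 j hj q (hq.trans hr') h3
        · exact absurd (hq h5) (q.fn _ h3)
      · rcases h6 x hx with h4 | rfl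
        · rcases h2 x h4 with h4 | h4
          · exact Or.inl h4
          · exact Or.inr ⟨h4.1, by omega⟩
        · exact Or.inr ⟨rfl, by simp⟩

omit hB in
lemma place (α : Λ) (u : PP Λ) (k : ℕ) (v : Bool)
    (hu : ∀ x ∈ u.s, x.1.1 = α → x.1.2 < 2 * k) : ∃ r ≤ u,
    ((α, 2 * k), true) ∈ r.s ∧ ((α, 2 * k + 1), v) ∈ r.s ∧
    ∀ j < k, ∀ q ≤ r, ((α, 2 * j), true) ∈ q.s → ((α, 2 * j), true) ∈ u.s := by
  obtain ⟨r, hr, h1, h2⟩ := fill α u k
  have h3 : ∀ x ∈ r.s, x.1.1 = α → x.1.2 < 2 * k := by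
    intro x hx hx'
    rcases h2 x hx with h | h
    · exact hu x h hx'
    · exact h.2
  obtain ⟨r1, hr1, h4, h5⟩ := exists_ext r (α, 2 * k) true (fun h => by
    have := h3 _ h rfl
    simp at this)
  obtain ⟨r2, hr2, h6, -⟩ := exists_ext r1 (α, 2 * k + 1) v (fun h => by
    rcases h5 _ h with h | h
    · have := h3 _ h rfl
      simp at this
    · simp at h)
  exact ⟨r2, (hr2.trans hr1).trans hr, hr2 h4, h6,
    fun j hj q hq => h1 j hj q ((hq.trans hr2).trans hr1)⟩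

/-- all strengthened Boolean combinations are forced to be infinite -/
theorem inv [WellFoundedLT Λ] (σ : Finset (Λ × Bool)) :
    Cons σ → ∀ (p : PP Λ) (N : ℕ), ∃ r ≤ p, ∃ k, N ≤ k ∧ r ∈ Zb B σ k := by
  classical
  induction σ using Finset.induction_on_max_value (fun a : Λ × Bool => a.1) with
  | empty => exact fun _ p N => ⟨p, le_rfl, N, le_rfl, fun a ha => absurd ha (by simp)⟩
  | insert a σ ha hmax ih =>
    intro hc p N
    have hc' : Cons σ := fun x hx y hy =>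
      hc x (Finset.mem_insert_of_mem hx) y (Finset.mem_insert_of_mem hy)
    have hlt : ∀ x ∈ σ, x.1 < a.1 := by
      intro x hx
      refine lt_of_le_of_ne (hmax x hx) fun h => ha ?_
      have := hc x (Finset.mem_insert_of_mem hx) a (Finset.mem_insert_self _ _) h
      rwa [← Prod.ext h this]
    -- a condition `q ≤ p`, and `r ≤ q`, `k` large, which work below `a.1`
    have key : ∃ q ≤ p, ∃ m, (∀ x ∈ q.s, x.1.2 < m) ∧ ∃ r ≤ q, ∃ k, N ≤ k ∧ m ≤ k ∧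
        r ∈ Zb B σ k ∧ ((∀ j ≤ m, r ∈ Rt T a.1 j k) ∨ ∀ q' ≤ q, q' ∉ Hyp T a.1 B) := by
      by_cases h : ∃ q ≤ p, q ∈ Hyp T a.1 B
      · obtain ⟨q, hq, h1⟩ := h
        obtain ⟨m, hm⟩ := exists_bound q
        obtain ⟨r, hr, k, hk, h2, h3⟩ := h1 σ hc' hlt m (max N m) q le_rfl
        exact ⟨q, hq, m, hm, r, hr, k, le_of_max_le_left hk, le_of_max_le_right hk, h2, Or.inl h3⟩
      · push Not at h
        obtain ⟨m, hm⟩ := exists_bound p
        obtain ⟨r, hr, k, hk, h2⟩ := ih hc' p (max N m)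
        exact ⟨p, le_rfl, m, hm, r, hr, k, le_of_max_le_left hk, le_of_max_le_right hk, h2,
          Or.inr h⟩
    obtain ⟨q, hq, m, hm, r, hr, k, hk, hmk, h2, h3⟩ := key
    obtain ⟨u, u1, u2, u3, -⟩ := amalg (hr.trans (le_res (bel a.1) q))
    have hu : ∀ x ∈ u.s, x.1.1 = a.1 → x.1.2 < m := by
      intro x hx hx'
      rcases u3 x hx with h | h
      · exact hm x h
      · exact absurd (mem_res.1 h).2 (by simp [bel, hx'])
    obtain ⟨w, hw, w1, w2, w3⟩ := place a.1 u k a.2 (fun x hx hx' => by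
      have := hu x hx hx'
      omega)
    refine ⟨w, (hw.trans u1).trans hq, k, hk, fun x hx => ?_⟩
    rcases Finset.mem_insert.1 hx with rfl | hx
    · refine ⟨?_, w2⟩
      rw [hB]
      refine ⟨w1, fun j hj q' hq' h4 => ?_⟩
      rcases h3 with h3 | h3
      · have := hu _ (w3 j hj q' hq' h4.1) rfl
        exact down_Rt T _ j k ((hq'.trans hw).trans u2)
          (supp_Rt T _ j k r (h3 j (by simp at this; omega)))
      · exact absurd h4.2 (h3 q' ((hq'.trans hw).trans u1))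
    · exact down_Z hB σ k (hw.trans u2) (supp_Z hB σ a.1 hlt k r h2) x hx

omit hB in
lemma d_inf (β : Λ) (p : PP Λ) (N : ℕ) : ∃ r ≤ p, ∃ j, N ≤ j ∧ ((β, 2 * j), true) ∈ r.s := by
  obtain ⟨m, hm⟩ := exists_bound p
  obtain ⟨r, hr, h1, -⟩ := exists_ext p (β, 2 * max N m) true (fun h => by
    have := hm _ h
    have := le_max_right N m
    simp only at *
    omega)
  exact ⟨r, hr, max N m, le_max_left _ _, h1⟩

end Pool.Agent.H252Z.Sel
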