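import Mathlib

/-!
# The forcing language, Cohen forcing, and selective independent families in the extension

The ground model is the ambient universe. A sentence of the forcing language of a preordered set
`P` of conditions is represented by the set of the conditions which force it. Negation,
conjunction and universal quantification have their usual forcing clauses; the other connectives
are defined from them classically. Quantifiers over reals of the extension range over names.
-/

set_option autoImplicit false

namespace Pool.Agent.H252Z.Sel

universe v

/-- Conditions of Cohen forcing: finite functions from a subset of `I` to `Bool`, given by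
their graphs. -/
structure Cond (I : Type) where
  s : Finset (I × Bool)
  fn : ∀ i, (i, true) ∈ s → (i, false) ∉ s

/-- `q ≤ p` means that `q` extends `p`. -/
instance (I : Type) : Preorder (Cond I) where
  le q p := p.s ⊆ q.s
  le_refl p := Finset.Subset.refl _
  le_trans _ _ _ h h' := Finset.Subset.trans h' h

section Language

variable {P : Type} [Preorder P]

/-- `p` forces `not φ` iff no `q ≤ p` forces `φ`. -/
def fnot (φ : Set P) : Set P := {p | ∀ q ≤ p, q ∉ φ}

/-- `p` forces `φ and ψ` iff it forces both. -/
def fand (φ ψ : Set P) : Set P := {p | p ∈ φ ∧ p ∈ ψ}

/-- `p` forces `for all i, φ i` iff it forces every `φ i`. -/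
def fall {ι : Sort v} (φ : ι → Set P) : Set P := {p | ∀ i, p ∈ φ i}

/-- `φ or ψ` is `not (not φ and not ψ)`. -/
def forr (φ ψ : Set P) : Set P := fnot (fand (fnot φ) (fnot ψ))

/-- `φ implies ψ` is `not (φ and not ψ)`. -/
def fimp (φ ψ : Set P) : Set P := fnot (fand φ (fnot ψ))

/-- `there is i with φ i` is `not for all i, not φ i`. -/
def fex {ι : Sort v} (φ : ι → Set P) : Set P := fnot (fall fun i => fnot (φ i))

/-- A statement about ground model objects. -/
def fground (h : Prop) : Set P := {_p | h}

/-- `p` forces that the generic filter meets the set `N` of conditions: the conditions lying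
below a member of `N` are dense below `p`. -/
def meets (N : Set P) : Set P := {p | ∀ q ≤ p, ∃ r ≤ q, ∃ s ∈ N, r ≤ s}

/-- `n` belongs to the subset of `ℕ` named by `x`. A name for a subset of `ℕ` is a map
`x : ℕ → Set P`; it names the set of the `n` such that the generic filter meets `x n`. -/
def mem (x : ℕ → Set P) (n : ℕ) : Set P := meets (x n)

/-- The names `x` and `y` name the same subset of `ℕ`. -/
def feq (x y : ℕ → Set P) : Set P :=
  fall fun n => fand (fimp (mem x n) (mem y n)) (fimp (mem y n) (mem x n))

/-- The set named by `x` belongs to the family named by `F`. A name for a family of subsets of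
`ℕ` is a map `F` from names to sets of conditions; it names the family of the values of the names
`y` such that the generic filter meets `F y`. -/
def inFam (F : (ℕ → Set P) → Set P) (x : ℕ → Set P) : Set P :=
  fex fun y => fand (meets (F y)) (feq x y)

/-- Infinitely many `n` satisfy `φ n`. -/
def fInf (φ : ℕ → Set P) : Set P := fall fun N => fex fun n => fand (fground (N ≤ n)) (φ n)

/-- Only finitely many `n` satisfy `φ n`. -/
def fFin (φ : ℕ → Set P) : Set P := fnot (fInf φ)

/-- The list `h` of pairs (name, value) names an element of `FF(F)`, a finite function from a
subset of the family `F` to `2`: its sets are in `F`, and equal sets have equal values. -/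
def IsFF (F : (ℕ → Set P) → Set P) (h : List ((ℕ → Set P) × Bool)) : Set P :=
  fand (fall fun a => fall fun _ : a ∈ h => inFam F a.1)
    (fall fun a => fall fun _ : a ∈ h => fall fun b => fall fun _ : b ∈ h =>
      fimp (feq a.1 b.1) (fground (a.2 = b.2)))

/-- The finite function named by `h'` extends the one named by `h`. -/
def Extends (h' h : List ((ℕ → Set P) × Bool)) : Set P :=
  fall fun a => fall fun _ : a ∈ h => fex fun b => fex fun _ : b ∈ h' =>
    fand (feq a.1 b.1) (fground (a.2 = b.2))

/-- `n` belongs to the Boolean combination `F ^ h`: it is in the sets with value `false` (that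
is, `0`) and outside the sets with value `true` (that is, `1`). -/
def comb (h : List ((ℕ → Set P) × Bool)) (n : ℕ) : Set P :=
  fall fun a => fall fun _ : a ∈ h => if a.2 then fnot (mem a.1 n) else mem a.1 n

/-- `F` is an independent family of infinite sets: all Boolean combinations are infinite. -/
def Independent (F : (ℕ → Set P) → Set P) : Set P :=
  fand (fall fun x => fimp (inFam F x) (fInf (mem x)))
    (fall fun h => fimp (IsFF F h) (fInf (comb h)))

/-- `F` is densely maximal. -/
def DenselyMaximal (F : (ℕ → Set P) → Set P) : Set P :=
  fall fun x => fimp (fInf (mem x)) (fall fun h => fimp (IsFF F h)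
    (fex fun h' => fand (IsFF F h') (fand (Extends h' h)
      (forr (fFin fun n => fand (comb h' n) (fnot (mem x n)))
        (fFin fun n => fand (comb h' n) (mem x n))))))

/-- The set named by `x` belongs to the density filter of `F`. -/
def InFil (F : (ℕ → Set P) → Set P) (x : ℕ → Set P) : Set P :=
  fand (fInf (mem x)) (fall fun h => fimp (IsFF F h)
    (fex fun h' => fand (IsFF F h') (fand (Extends h' h)
      (fFin fun n => fand (comb h' n) (fnot (mem x n))))))

/-- The density filter of `F` is a P-set: every sequence of its members has a
pseudo-intersection in it. -/
def PSet (F : (ℕ → Set P) → Set P) : Set P :=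
  fall fun A : ℕ → ℕ → Set P => fimp (fall fun i => InFil F (A i))
    (fex fun B => fand (InFil F B)
      (fall fun i => fFin fun n => fand (mem B n) (fnot (mem (A i) n))))

/-- The density filter of `F` is a Q-set: for every partition of `ℕ` into finite sets `J i`, some
member of it meets each `J i` in at most one point. -/
def QSet (F : (ℕ → Set P) → Set P) : Set P :=
  fall fun J : ℕ → ℕ → Set P =>
    fimp (fand (fall fun i => fFin (mem (J i))) (fand (fall fun n => fex fun i => mem (J i) n)
      (fall fun i => fall fun j => fall fun n =>
        fimp (fand (mem (J i) n) (mem (J j) n)) (fground (i = j)))))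
    (fex fun A => fand (InFil F A)
      (fall fun i => fall fun m => fall fun n =>
        fimp (fand (fand (mem A m) (mem A n)) (fand (mem (J i) m) (mem (J i) n)))
          (fground (m = n))))

/-- `F` names a selective independent family. -/
def Selective (F : (ℕ → Set P) → Set P) : Set P :=
  fand (Independent F) (fand (DenselyMaximal F) (fand (PSet F) (QSet F)))

end Language

end Pool.Agent.H252Z.Sel
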