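import Pool.Agent.H252Z.Sel.Main

set_option autoImplicit false

namespace Pool.Agent.H252Z.Sel

open Cond Cardinal

/-- the ordinals below `ω₂` -/
abbrev Om2 : Type := (ℵ_ 2 : Cardinal.{0}).ord.ToType

lemma mk_Om2 : #Om2 = ℵ_ 2 := by simp

lemma aleph_two : (ℵ_ 2 : Cardinal.{0}) = Order.succ (ℵ_ 1) := by
  rw [← Cardinal.aleph_succ]
  congr 1
  simp [one_add_one_eq_two]

lemma mk_Iio_le (a : Om2) : #(Set.Iio a) ≤ ℵ_ 1 := by
  exact Order.lt_succ_iff.1 ((Cardinal.mk_Iio_ord_toType a).trans_eq aleph_two)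

lemma one_lt_two' : (ℵ_ 1 : Cardinal.{0}) < ℵ_ 2 := by
  rw [aleph_two]
  exact Order.lt_succ _

lemma bounded_of_countable {C : Set Om2} (hC : C.Countable) : ∃ α, ∀ a ∈ C, a < α := by
  by_contra h
  push Not at h
  have h1 : (Set.univ : Set Om2) ⊆ C ∪ ⋃ a ∈ C, Set.Iio a := by
    intro x _
    obtain ⟨a, ha, h2⟩ := h x
    rcases h2.lt_or_eq with h2 | h2
    · exact Or.inr (Set.mem_biUnion ha h2)
    · exact Or.inl (h2 ▸ ha)
  have h2 := Cardinal.mk_le_mk_of_subset h1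
  rw [Cardinal.mk_univ, mk_Om2] at h2
  have h0 : (ℵ₀ : Cardinal.{0}) ≤ ℵ_ 1 := Cardinal.aleph0_le_aleph 1
  have h3 : #C ≤ ℵ_ 1 := hC.le_aleph0.trans h0
  have h4 : #(⋃ a ∈ C, Set.Iio a : Set Om2) ≤ ℵ_ 1 := by
    refine (Cardinal.mk_biUnion_le (fun a => Set.Iio a) C).trans ?_
    exact Cardinal.mul_le_of_le h0 h3 (ciSup_le' fun a => mk_Iio_le a.1)
  have h5 := (Cardinal.mk_union_le _ _).trans (Cardinal.add_le_of_le h0 h3 h4)
  exact absurd (h2.trans h5) (not_le.2 one_lt_two')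

lemma pow_le (hCH : (𝔠 : Cardinal.{0}) = ℵ_ 1) : (ℵ_ 2 : Cardinal.{0}) ^ (ℵ₀ : Cardinal.{0}) ≤ ℵ_ 2 := by
  have h0 : (ℵ₀ : Cardinal.{0}) ≤ ℵ_ 2 := Cardinal.aleph0_le_aleph 2
  have h1 : (Set.univ : Set (ℕ → Om2)) ⊆ ⋃ a : Om2, {f | ∀ n, f n < a} := by
    intro f _
    obtain ⟨α, hα⟩ := bounded_of_countable (Set.countable_range f)
    exact Set.mem_iUnion.2 ⟨α, fun n => hα _ ⟨n, rfl⟩⟩
  have h2 := Cardinal.mk_le_mk_of_subset h1
  have h3 : ∀ a : Om2, #({f | ∀ n, f n < a} : Set (ℕ → Om2)) ≤ ℵ_ 2 := by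
    intro a
    have : #({f | ∀ n, f n < a} : Set (ℕ → Om2)) ≤ #(ℕ → Set.Iio a) :=
      Cardinal.mk_le_of_injective (f := fun f n => ⟨f.1 n, f.2 n⟩) (by
        intro f g hfg
        ext n
        exact congrArg Subtype.val (congrFun hfg n))
    refine this.trans ?_
    rw [← Cardinal.power_def, Cardinal.mk_nat]
    refine (Cardinal.power_le_power_right (mk_Iio_le a)).trans ?_
    rw [← hCH, Cardinal.continuum_power_aleph0, hCH]
    exact one_lt_two'.le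
  rw [Cardinal.mk_univ, ← Cardinal.power_def, Cardinal.mk_nat, mk_Om2] at h2
  refine h2.trans ((Cardinal.mk_iUnion_le _).trans ?_)
  rw [mk_Om2]
  exact Cardinal.mul_le_of_le h0 le_rfl (ciSup_le' h3)

lemma mk_PP : #(Option (PP Om2)) ≤ ℵ_ 2 := by
  have h0 : (ℵ₀ : Cardinal.{0}) ≤ ℵ_ 2 := Cardinal.aleph0_le_aleph 2
  have : Infinite Om2 := Cardinal.infinite_iff.2 (by rw [mk_Om2]; exact h0)
  have h1 : #(PP Om2) ≤ #(Finset ((Om2 × ℕ) × Bool)) :=
    Cardinal.mk_le_of_injective (f := fun p => p.s) (by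
      intro a b hab
      cases a
      cases b
      simpa using hab)
  rw [Cardinal.mk_finset_of_infinite] at h1
  have h2 : #((Om2 × ℕ) × Bool) ≤ ℵ_ 2 := by
    simp only [Cardinal.mk_prod, Cardinal.lift_id, mk_Om2, Cardinal.mk_nat, Cardinal.mk_bool]
    exact Cardinal.mul_le_of_le h0 (Cardinal.mul_le_of_le h0 le_rfl h0)
      ((Cardinal.natCast_le_aleph0 (n := 2)).trans h0)
  rw [Cardinal.mk_option]
  exact Cardinal.add_le_of_le h0 (h1.trans h2) (Cardinal.one_le_aleph0.trans h0)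

lemma exists_T (hCH : (𝔠 : Cardinal.{0}) = ℵ_ 1) : ∃ T : Om2 → ℕ → ℕ → Set (PP Om2),
    ∀ (R : ℕ → ℕ → Set (PP Om2)) (S : Finset Om2), ∃ β, (∀ a ∈ S, a < β) ∧
      ∀ j k, Rt T β j k = meets (R j k) := by
  have h0 : (ℵ₀ : Cardinal.{0}) ≤ ℵ_ 2 := Cardinal.aleph0_le_aleph 2
  have hcard : #(Om2 × (ℕ × ℕ × ℕ → Option (PP Om2))) ≤ #Om2 := by
    rw [Cardinal.mk_prod, Cardinal.lift_id, Cardinal.lift_id, mk_Om2]
    refine Cardinal.mul_le_of_le h0 le_rfl ?_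
    rw [← Cardinal.power_def, Cardinal.mk_eq_aleph0 (ℕ × ℕ × ℕ)]
    exact (Cardinal.power_le_power_right mk_PP).trans (pow_le hCH)
  have hne : Nonempty Om2 := Cardinal.mk_ne_zero_iff.1 (by
    rw [mk_Om2]; exact (Cardinal.aleph_pos 2).ne')
  obtain ⟨e⟩ := hcard
  let g : Om2 → Om2 × (ℕ × ℕ × ℕ → Option (PP Om2)) := Function.invFun e
  have hg : ∀ x, g (e x) = x := Function.leftInverse_invFun e.injective
  refine ⟨fun β j k => {s | ∃ n, (g β).2 (j, k, n) = some s}, fun R S => ?_⟩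
  choose N hN1 hN2 using fun j k => exists_countable_name (R j k)
  have hf : ∀ j k, ∃ f : ℕ → Option (PP Om2), {s | ∃ n, f n = some s} = N j k := by
    intro j k
    have hc : (insert none (some '' N j k)).Countable := ((hN1 j k).image _).insert _
    obtain ⟨f, hf⟩ := hc.exists_eq_range (Set.insert_nonempty _ _)
    refine ⟨f, ?_⟩
    ext s
    have : some s ∈ insert none (some '' N j k) ↔ some s ∈ Set.range f := by rw [hf]
    simpa using this.symm
  choose f hf using hf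
  let t : ℕ × ℕ × ℕ → Option (PP Om2) := fun x => f x.1 x.2.1 x.2.2
  have hC : ((S : Set Om2) ∪ ⋃ j, ⋃ k, ⋃ s ∈ N j k,
      (fun x : (Om2 × ℕ) × Bool => x.1.1) '' (s.s : Set ((Om2 × ℕ) × Bool))).Countable :=
    S.countable_toSet.union (Set.countable_iUnion fun j => Set.countable_iUnion fun k =>
      (hN1 j k).biUnion fun s _ => ((Finset.finite_toSet _).image _).countable)
  obtain ⟨α, hα⟩ := bounded_of_countable hC
  have hβ : ∃ a : Om2, α ≤ e (a, t) := by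
    by_contra h
    push Not at h
    have : #Om2 ≤ #(Set.Iio α) := Cardinal.mk_le_of_injective (f := fun a => ⟨e (a, t), h a⟩) (by
      intro a b hab
      have := e.injective (congrArg Subtype.val hab)
      exact (Prod.mk.inj this).1)
    rw [mk_Om2] at this
    exact absurd (this.trans (mk_Iio_le α)) (not_le.2 one_lt_two')
  obtain ⟨a, ha⟩ := hβ
  refine ⟨e (a, t), fun b hb => (hα b (Or.inl hb)).trans_le ha, fun j k => ?_⟩
  rw [← hN2, ← hf]
  ext p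
  simp only [Rt, hg, Set.mem_setOf_eq, t]
  constructor
  · exact fun h => down_meets _ (le_res _ p) h
  · refine fun h => supp_meets ?_ p h
    intro s hs x hx
    refine (hα x.1.1 (Or.inr ?_)).trans_le ha
    simp only [Set.mem_iUnion]
    exact ⟨j, k, s, hf j k ▸ hs, x, hx, rfl⟩

theorem main (hCH : (𝔠 : Cardinal.{0}) = ℵ_ 1) :
    ∃ F : (ℕ → Set (Cond (Om2 × ℕ))) → Set (Cond (Om2 × ℕ)), ∀ p, p ∈ Selective F := by
  obtain ⟨T, hT⟩ := exists_T hCH
  obtain ⟨B, hB⟩ := exists_B T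
  exact ⟨Fam B, selective hB hT⟩

end Pool.Agent.H252Z.Sel
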