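import Pool.Agent.H252Z.Sel.Core

set_option autoImplicit false
set_option linter.unusedSectionVars false

namespace Pool.Agent.H252Z.Sel

open Cond

variable {Λ : Type} [LinearOrder Λ] [WellFoundedLT Λ]

/-- the members of the family -/
def Y (B : Λ → ℕ → Set (PP Λ)) (α : Λ) (k : ℕ) : Set (PP Λ) :=
  {p | p ∈ B α k ∧ ((α, 2 * k + 1), false) ∈ p.s}

/-- the family -/
def Fam (B : Λ → ℕ → Set (PP Λ)) (y : ℕ → Set (PP Λ)) : Set (PP Λ) := {_p | ∃ α, y = Y B α}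

/-- the list of names attached to a finite set of pairs -/
noncomputable def hl (B : Λ → ℕ → Set (PP Λ)) (σ : Finset (Λ × Bool)) :
    List ((ℕ → Set (PP Λ)) × Bool) := σ.toList.map fun a => (Y B a.1, a.2)

lemma mem_hl {B : Λ → ℕ → Set (PP Λ)} {σ : Finset (Λ × Bool)} {a : (ℕ → Set (PP Λ)) × Bool} :
    a ∈ hl B σ ↔ ∃ x ∈ σ, (Y B x.1, x.2) = a := by
  simp only [hl, List.mem_map, Finset.mem_toList]

/-- `r` forces that the function named by `h` is contained in the one given by `σ` -/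
def Sub (B : Λ → ℕ → Set (PP Λ)) (r : PP Λ) (h : List ((ℕ → Set (PP Λ)) × Bool))
    (σ : Finset (Λ × Bool)) : Prop := ∀ a ∈ h, ∃ x ∈ σ, r ∈ feq a.1 (Y B x.1) ∧ a.2 = x.2

/-- `φ` meets all strengthened Boolean combinations in infinite sets -/
def Meets (B : Λ → ℕ → Set (PP Λ)) (q : PP Λ) (φ : ℕ → Set (PP Λ)) : Prop :=
  ∀ σ, Cons σ → ∀ N, ∀ q' ≤ q, ∃ r ≤ q', ∃ k, N ≤ k ∧ r ∈ Zb B σ k ∧ r ∈ φ k

lemma cons_insert {σ : Finset (Λ × Bool)} (h : Cons σ) (β : Λ) (v : Bool)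
    (hβ : ∀ a ∈ σ, a.1 ≠ β) : Cons (insert (β, v) σ) := by
  intro a ha b hb hab
  rcases Finset.mem_insert.1 ha with rfl | ha <;> rcases Finset.mem_insert.1 hb with rfl | hb
  · rfl
  · exact absurd hab.symm (hβ b hb)
  · exact absurd hab (hβ a ha)
  · exact h a ha b hb hab

lemma cons_fill {σ : Finset (Λ × Bool)} (h : Cons σ) (S : Finset Λ) :
    ∃ σ', Cons σ' ∧ σ ⊆ σ' ∧ ∀ β ∈ S, ∃ v, (β, v) ∈ σ' := by
  induction S using Finset.induction_on with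
  | empty => exact ⟨σ, h, Finset.Subset.refl _, fun β hβ => absurd hβ (by simp)⟩
  | insert β S _ ih =>
    obtain ⟨σ', h1, h2, h3⟩ := ih
    by_cases h4 : ∃ a ∈ σ', a.1 = β
    · obtain ⟨a, ha, rfl⟩ := h4
      refine ⟨σ', h1, h2, fun γ hγ => ?_⟩
      rcases Finset.mem_insert.1 hγ with rfl | hγ
      · exact ⟨a.2, ha⟩
      · exact h3 γ hγ
    · push Not at h4
      refine ⟨insert (β, false) σ', cons_insert h1 β false h4,
        h2.trans (Finset.subset_insert _ _), fun γ hγ => ?_⟩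
      rcases Finset.mem_insert.1 hγ with rfl | hγ
      · exact ⟨false, Finset.mem_insert_self _ _⟩
      · obtain ⟨v, hv⟩ := h3 γ hγ
        exact ⟨v, Finset.mem_insert_of_mem hv⟩

variable {T : Λ → ℕ → ℕ → Set (PP Λ)} {B : Λ → ℕ → Set (PP Λ)} (hB : ∀ α, B α = step T α B)
include hB

lemma down_Y (α : Λ) (k : ℕ) : Down (Y B α k) :=
  fun _ _ hq h => ⟨down_B hB _ _ hq h.1, hq h.2⟩

lemma Y_ne {α β : Λ} (h : α ≠ β) (r : PP Λ) : r ∉ feq (Y B α) (Y B β) := by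
  intro h1
  have hc : Cons ({(α, false), (β, true)} : Finset (Λ × Bool)) :=
    cons_insert (fun a ha b hb _ => by
      rw [Finset.mem_singleton.1 ha, Finset.mem_singleton.1 hb]) α false
      (fun a ha => by rw [Finset.mem_singleton.1 ha]; exact h.symm)
  obtain ⟨r', hr', k, -, h2⟩ := inv hB _ hc r 0
  have h3 : r' ∈ Y B α k := h2 (α, false) (by simp)
  have h4 := feq_mem (down_feq _ _ hr' h1) (meets_of_mem h3)
  obtain ⟨r'', hr'', h5⟩ := exists_of_meets (down_Y hB β k) h4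
  exact r''.fn _ (hr'' (h2 (β, true) (by simp)).2) h5.2

omit hB in
lemma inFam_Y (α : Λ) (p : PP Λ) : p ∈ inFam (Fam B) (Y B α) :=
  mem_fex.2 fun q _ => ⟨q, le_rfl, Y B α, meets_of_mem ⟨α, rfl⟩, feq_refl _ _⟩

lemma IsFF_hl {σ : Finset (Λ × Bool)} (h : Cons σ) (p : PP Λ) : p ∈ IsFF (Fam B) (hl B σ) := by
  refine ⟨fun a ha => ?_, fun a ha b hb => fimp_intro fun q _ h1 => ?_⟩
  · obtain ⟨x, -, rfl⟩ := mem_hl.1 ha
    exact inFam_Y x.1 p
  · obtain ⟨x, hx, rfl⟩ := mem_hl.1 ha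
    obtain ⟨y, hy, rfl⟩ := mem_hl.1 hb
    refine h x hx y hy ?_
    by_contra hne
    exact Y_ne hB hne q h1

omit hB in
lemma decide_fam {q : PP Λ} {x : ℕ → Set (PP Λ)} (h : q ∈ inFam (Fam B) x) :
    ∃ r ≤ q, ∃ α, r ∈ feq x (Y B α) := by
  obtain ⟨r, hr, y, h1, h2⟩ := mem_fex.1 h q le_rfl
  obtain ⟨-, -, s, ⟨α, rfl⟩, -⟩ := h1 r le_rfl
  exact ⟨r, hr, α, h2⟩

omit hB in
lemma decide_list (h : List ((ℕ → Set (PP Λ)) × Bool)) : ∀ q : PP Λ,
    (∀ a ∈ h, q ∈ inFam (Fam B) a.1) → ∃ r ≤ q, ∀ a ∈ h, ∃ α, r ∈ feq a.1 (Y B α) := by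
  induction h with
  | nil => exact fun q _ => ⟨q, le_rfl, fun a ha => absurd ha (by simp)⟩
  | cons b h ih =>
    intro q hq
    obtain ⟨r, hr, α, h1⟩ := decide_fam (hq b (by simp))
    obtain ⟨r', hr', h2⟩ := ih r fun a ha =>
      down_inFam _ _ hr (hq a (List.mem_cons_of_mem _ ha))
    refine ⟨r', hr'.trans hr, fun a ha => ?_⟩
    rcases List.mem_cons.1 ha with rfl | ha
    · exact ⟨α, down_feq _ _ hr' h1⟩
    · exact h2 a ha

omit hB in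
lemma decide_FF {q : PP Λ} {h : List ((ℕ → Set (PP Λ)) × Bool)} (hq : q ∈ IsFF (Fam B) h) :
    ∃ r ≤ q, ∃ σ, Cons σ ∧ Sub B r h σ := by
  classical
  obtain ⟨r, hr, h1⟩ := decide_list h q hq.1
  have : Nonempty (PP Λ) := ⟨q⟩
  have h2 : ∀ a : {a // a ∈ h}, ∃ α, r ∈ feq a.1.1 (Y B α) := fun a => h1 a.1 a.2
  choose g hg using h2
  refine ⟨r, hr, (h.attach.map fun a => (g a, a.1.2)).toFinset, ?_, ?_⟩
  · intro x hx y hy hxy
    simp only [List.mem_toFinset, List.mem_map, List.mem_attach, true_and] at hx hy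
    obtain ⟨a, rfl⟩ := hx
    obtain ⟨b, rfl⟩ := hy
    have h3 : r ∈ feq a.1.1 b.1.1 := feq_trans (hg a) (feq_symm (by
      have := hg b
      rwa [show g b = g a from hxy.symm] at this))
    obtain ⟨_, _, h4⟩ := mem_fimp.1 (hq.2 a.1 a.2 b.1 b.2) r hr h3
    exact h4
  · intro a ha
    refine ⟨(g ⟨a, ha⟩, a.2), ?_, hg ⟨a, ha⟩, rfl⟩
    simp only [List.mem_toFinset, List.mem_map, List.mem_attach, true_and]
    exact ⟨⟨a, ha⟩, rfl⟩

omit hB in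
lemma sub_hl (σ : Finset (Λ × Bool)) (r : PP Λ) : Sub B r (hl B σ) σ := by
  intro a ha
  obtain ⟨x, hx, rfl⟩ := mem_hl.1 ha
  exact ⟨x, hx, feq_refl _ _, rfl⟩

lemma comb_of_Z {r r' : PP Λ} {h : List ((ℕ → Set (PP Λ)) × Bool)} {σ : Finset (Λ × Bool)}
    (hs : Sub B r h σ) (hr : r' ≤ r) {k : ℕ} (hz : r' ∈ Zb B σ k) : r' ∈ comb h k := by
  intro a ha
  obtain ⟨x, hx, h1, h2⟩ := hs a ha
  have h3 := hz x hx
  split_ifs with h4
  · intro q hq h5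
    have h6 := feq_mem (down_feq _ _ (hq.trans hr) h1) h5
    obtain ⟨q', hq', h7⟩ := exists_of_meets (down_Y hB x.1 k) h6
    have h8 := (hq'.trans hq) h3.2
    rw [← h2, h4] at h8
    exact q'.fn _ h8 h7.2
  · have h5 : x.2 = false := by
      rw [← h2]
      simpa using h4
    refine feq_mem (feq_symm (down_feq _ _ hr h1)) (meets_of_mem ⟨h3.1, ?_⟩)
    rw [← h5]
    exact h3.2

omit hB in
lemma Extends_of {r : PP Λ} {h : List ((ℕ → Set (PP Λ)) × Bool)} {σ σ' : Finset (Λ × Bool)}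
    (hs : Sub B r h σ) (hσ : σ ⊆ σ') : r ∈ Extends (hl B σ') h := by
  intro a ha
  obtain ⟨x, hx, h1, h2⟩ := hs a ha
  refine mem_fex.2 fun q hq => ⟨q, le_rfl, (Y B x.1, x.2), mem_fex.2 fun q' hq' =>
    ⟨q', le_rfl, mem_hl.2 ⟨x, hσ hx, rfl⟩, down_feq _ _ (hq'.trans hq) h1, h2⟩⟩

lemma sub_of_Extends {r : PP Λ} {h : List ((ℕ → Set (PP Λ)) × Bool)}
    {σ σ' : Finset (Λ × Bool)} (he : r ∈ Extends h (hl B σ)) (hs : Sub B r h σ') : σ ⊆ σ' := by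
  intro x hx
  obtain ⟨q, hq, b, h1⟩ := mem_fex.1 (he _ (mem_hl.2 ⟨x, hx, rfl⟩)) r le_rfl
  obtain ⟨q', hq', hb, h2, h3⟩ := mem_fex.1 h1 q le_rfl
  obtain ⟨y, hy, h4, h5⟩ := hs b hb
  have h6 : x.1 = y.1 := by
    by_contra hne
    exact Y_ne hB hne q' (feq_trans h2 (down_feq _ _ (hq'.trans hq) h4))
  have h7 : x.2 = y.2 := (show x.2 = b.2 from h3).trans h5
  rwa [Prod.ext h6 h7]

lemma comb_elim {r : PP Λ} {σ : Finset (Λ × Bool)} {k : ℕ} (h : r ∈ comb (hl B σ) k)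
    {x : Λ × Bool} (hx : x ∈ σ) (h1 : r ∈ B x.1 k) {v : Bool} (h2 : ((x.1, 2 * k + 1), v) ∈ r.s) :
    v = x.2 := by
  have h3 := h _ (mem_hl.2 ⟨x, hx, rfl⟩)
  simp only at h3
  split_ifs at h3 with h4
  · cases v
    · exact absurd (meets_of_mem (N := Y B x.1 k) ⟨h1, h2⟩) (h3 r le_rfl)
    · exact h4.symm
  · obtain ⟨q, hq, h5⟩ := exists_of_meets (down_Y hB x.1 k) h3
    cases v
    · simpa using h4
    · exact absurd h5.2 (q.fn _ (hq h2))

lemma comb_B {r : PP Λ} {σ : Finset (Λ × Bool)} {k : ℕ} (h : r ∈ comb (hl B σ) k)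
    {β : Λ} (hβ : (β, false) ∈ σ) : ∃ r' ≤ r, r' ∈ B β k := by
  have h3 := h _ (mem_hl.2 ⟨_, hβ, rfl⟩)
  simp only [Bool.false_eq_true, if_false] at h3
  obtain ⟨q, hq, h5⟩ := exists_of_meets (down_Y hB β k) h3
  exact ⟨q, hq, h5.1⟩

lemma Z_of_comb {σ : Finset (Λ × Bool)} {k : ℕ} (τ : Finset (Λ × Bool)) : τ ⊆ σ →
    ∀ r : PP Λ, r ∈ comb (hl B σ) k → (∀ x ∈ τ, r ∈ B x.1 k) → ∃ r' ≤ r, r' ∈ Zb B τ k := by
  induction τ using Finset.induction_on with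
  | empty => exact fun _ r _ _ => ⟨r, le_rfl, fun a ha => absurd ha (by simp)⟩
  | insert x τ _ ih =>
    intro hτ r h1 h2
    obtain ⟨r', hr', h3⟩ := ih ((Finset.subset_insert _ _).trans hτ) r h1
      fun y hy => h2 y (Finset.mem_insert_of_mem hy)
    obtain ⟨r'', hr'', v, h4⟩ := exists_decide r' (x.1, 2 * k + 1)
    have h5 := down_B hB _ _ (hr''.trans hr') (h2 x (Finset.mem_insert_self _ _))
    have h6 := comb_elim hB (down_comb _ _ (hr''.trans hr') h1)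
      (hτ (Finset.mem_insert_self _ _)) h5 h4
    refine ⟨r'', hr''.trans hr', fun y hy => ?_⟩
    rcases Finset.mem_insert.1 hy with rfl | hy
    · exact ⟨h5, h6 ▸ h4⟩
    · exact down_Z hB τ k hr'' h3 y hy

lemma meets_B (S : Finset Λ) (q : PP Λ) : Meets B q fun k => {p | ∀ β ∈ S, p ∈ B β k} := by
  intro σ hσ N q' _
  obtain ⟨σ', h1, h2, h3⟩ := cons_fill hσ S
  obtain ⟨r, hr, k, hk, h4⟩ := inv hB σ' h1 q' N
  refine ⟨r, hr, k, hk, fun a ha => h4 a (h2 ha), fun β hβ => ?_⟩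
  obtain ⟨v, hv⟩ := h3 β hβ
  exact (h4 _ hv).1

variable (hT : ∀ (R : ℕ → ℕ → Set (PP Λ)) (S : Finset Λ), ∃ β, (∀ a ∈ S, a < β) ∧
  ∀ j k, Rt T β j k = meets (R j k))
include hT

lemma homog (R : ℕ → ℕ → Set (PP Λ)) (S : Finset Λ) (q : PP Λ)
    (H : ∀ m, Meets B q fun k => {p | ∀ j ≤ m, p ∈ R j k}) : ∃ β, (∀ a ∈ S, a < β) ∧
    ∀ r ≤ q, ∀ j k, j < k → ((β, 2 * j), true) ∈ r.s → r ∈ B β k → r ∈ meets (R j k) := by
  obtain ⟨β, h1, h2⟩ := hT R S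
  have h3 : q ∈ Hyp T β B := by
    intro σ hσ _ m N q' hq'
    obtain ⟨r, hr, k, hk, h4, h5⟩ := H m σ hσ N q' hq'
    exact ⟨r, hr, k, hk, h4, fun j hj => by rw [h2]; exact meets_of_mem (h5 j hj)⟩
  refine ⟨β, h1, fun r hr j k hjk h4 h5 => ?_⟩
  rw [hB] at h5
  rw [← h2]
  exact h5.2 j hjk r le_rfl ⟨h4, down_Hyp T β B hr h3⟩

lemma fil {q : PP Λ} {φ : ℕ → Set (PP Λ)} (H : Meets B q φ) {σ : Finset (Λ × Bool)}
    (hσ : Cons σ) : ∃ r ≤ q, ∃ σ', Cons σ' ∧ σ ⊆ σ' ∧ ∃ N, ∀ r' ≤ r, ∀ k, N ≤ k →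
      r' ∈ comb (hl B σ') k → r' ∈ meets (φ k) := by
  obtain ⟨β, h1, h2⟩ := homog hB hT (fun _ k => φ k) (σ.image Prod.fst) q (by
    intro m τ hτ N q' hq'
    obtain ⟨r, hr, k, hk, h3, h4⟩ := H τ hτ N q' hq'
    exact ⟨r, hr, k, hk, h3, fun _ _ => h4⟩)
  obtain ⟨r, hr, j, -, h3⟩ := d_inf β q 0
  refine ⟨r, hr, insert (β, false) σ, cons_insert hσ β false
    (fun a ha => (h1 a.1 (Finset.mem_image_of_mem _ ha)).ne), Finset.subset_insert _ _, j + 1,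
    fun r' hr' k hk h4 => meets_of_dense fun r1 hr1 => ?_⟩
  obtain ⟨r2, hr2, h5⟩ := comb_B hB (down_comb _ _ hr1 h4) (Finset.mem_insert_self _ _)
  have h6 : r2 ≤ r := (hr2.trans hr1).trans hr'
  exact ⟨r2, hr2, h2 r2 (h6.trans hr) j k hk (h6 h3) h5⟩

lemma InFil_of_meets {q : PP Λ} {x : ℕ → Set (PP Λ)} (H : Meets B q (mem x)) :
    q ∈ InFil (Fam B) x := by
  refine ⟨mem_fInf.2 fun N q' hq' => ?_, fun h => fimp_intro fun q1 hq1 h1 =>
    mem_fex.2 fun q2 hq2 => ?_⟩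
  · obtain ⟨r, hr, k, hk, -, h2⟩ := H ∅ (fun a ha => absurd ha (by simp)) N q' hq'
    exact ⟨r, hr, k, hk, h2⟩
  · obtain ⟨r, hr, σ, hσ, h2⟩ := decide_FF (down_IsFF _ _ hq2 h1)
    have H' : Meets B r (mem x) := fun τ hτ N q' hq' =>
      H τ hτ N q' (((hq'.trans hr).trans hq2).trans hq1)
    obtain ⟨r1, hr1, σ', h3, h4, N, h5⟩ := fil hB hT H' hσ
    refine ⟨r1, hr1.trans hr, hl B σ', IsFF_hl hB h3 _,
      down_Extends _ _ hr1 (Extends_of h2 h4), fFin_intro N fun r' hr' k hk h6 => ?_⟩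
    obtain ⟨r2, hr2, h7⟩ := exists_of_meets (down_mem x k) (h5 r' hr' k hk h6.1)
    exact h6.2 r2 hr2 h7

omit hT in
lemma meets_of_InFil {q : PP Λ} {A : ℕ → ℕ → Set (PP Λ)} (H : ∀ i, q ∈ InFil (Fam B) (A i))
    (m : ℕ) : Meets B q fun k => {p | ∀ i < m, p ∈ mem (A i) k} := by
  intro σ hσ N q' hq'
  have key : ∃ r ≤ q', ∃ σ', Cons σ' ∧ σ ⊆ σ' ∧ ∃ M, ∀ r' ≤ r, ∀ k, M ≤ k → r' ∈ Zb B σ' k →
      ∀ i < m, r' ∈ mem (A i) k := by
    induction m with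
    | zero => exact ⟨q', le_rfl, σ, hσ, Finset.Subset.refl _, 0,
        fun _ _ _ _ _ i hi => absurd hi (Nat.not_lt_zero _)⟩
    | succ m ih =>
      obtain ⟨r, hr, σ', h1, h2, M, h3⟩ := ih
      obtain ⟨r1, hr1, h4⟩ := mem_fimp.1 ((H m).2 (hl B σ')) r (hr.trans hq') (IsFF_hl hB h1 r)
      obtain ⟨r2, hr2, h', h5, h6, h7⟩ := mem_fex.1 h4 r1 le_rfl
      obtain ⟨r3, hr3, σ'', h8, h9⟩ := decide_FF h5
      have h10 := sub_of_Extends hB (down_Extends _ _ hr3 h6) h9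
      obtain ⟨r4, hr4, M', h11⟩ := mem_fFin.1 h7 r3 hr3
      have h12 : r4 ≤ r := ((hr4.trans hr3).trans hr2).trans hr1
      refine ⟨r4, h12.trans hr, σ'', h8, h2.trans h10, max M M', fun r' hr' k hk h13 i hi => ?_⟩
      rcases Nat.lt_succ_iff_lt_or_eq.1 hi with hi | rfl
      · exact h3 r' (hr'.trans h12) k (le_of_max_le_left hk) (fun a ha => h13 a (h10 ha)) i hi
      · refine meets_of_dense fun r5 hr5 => ?_
        have h14 := h11 r5 (hr5.trans hr') k (le_of_max_le_right hk)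
        have h15 := comb_of_Z hB h9 ((hr5.trans hr').trans hr4) (down_Z hB _ _ hr5 h13)
        by_contra h16
        push Not at h16
        exact h14 ⟨h15, h16⟩
  obtain ⟨r, hr, σ', h1, h2, M, h3⟩ := key
  obtain ⟨r', hr', k, hk, h4⟩ := inv hB σ' h1 r (max N M)
  exact ⟨r', hr'.trans hr, k, le_of_max_le_left hk, fun a ha => h4 a (h2 ha),
    h3 r' hr' k (le_of_max_le_right hk) h4⟩

lemma InFil_B (β : Λ) (q : PP Λ) : q ∈ InFil (Fam B) (B β) := by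
  refine InFil_of_meets hB hT fun σ hσ N q' hq' => ?_
  obtain ⟨r, hr, k, hk, h1, h2⟩ := meets_B hB {β} q σ hσ N q' hq'
  exact ⟨r, hr, k, hk, h1, meets_of_mem (h2 β (by simp))⟩

omit hT in
theorem independent (p : PP Λ) : p ∈ Independent (Fam B) := by
  refine ⟨fun x => fimp_intro fun q _ h => mem_fInf.2 fun N q' hq' => ?_,
    fun h => fimp_intro fun q _ h1 => mem_fInf.2 fun N q' hq' => ?_⟩
  · obtain ⟨r, hr, α, h1⟩ := decide_fam (down_inFam _ _ hq' h)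
    obtain ⟨r', hr', k, hk, h2⟩ := inv hB {(α, false)} (fun a ha b hb _ => by
      rw [Finset.mem_singleton.1 ha, Finset.mem_singleton.1 hb]) r N
    exact ⟨r', hr'.trans hr, k, hk, feq_mem (feq_symm (down_feq _ _ hr' h1))
      (meets_of_mem (h2 (α, false) (by simp)))⟩
  · obtain ⟨r, hr, σ, hσ, h2⟩ := decide_FF (down_IsFF _ _ hq' h1)
    obtain ⟨r', hr', k, hk, h3⟩ := inv hB σ hσ r N
    exact ⟨r', hr'.trans hr, k, hk, comb_of_Z hB h2 hr' h3⟩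

theorem denselyMaximal (p : PP Λ) : p ∈ DenselyMaximal (Fam B) := by
  classical
  refine fun x => fimp_intro fun q0 _ _ h => fimp_intro fun q1 _ h1 => mem_fex.2 fun q hq => ?_
  obtain ⟨r, hr, σ, hσ, h2⟩ := decide_FF (down_IsFF _ _ hq h1)
  by_cases hA : ∃ r1 ≤ r, ∃ τ, Cons τ ∧ σ ⊆ τ ∧ ∃ N, ∀ r' ≤ r1, ∀ k, N ≤ k →
      ¬ (r' ∈ Zb B τ k ∧ r' ∈ mem x k)
  · obtain ⟨r1, hr1, τ, hτ, h3, N, h4⟩ := hA
    obtain ⟨r2, hr2, σ', h5, h6, M, h7⟩ := fil hB hT (meets_B hB (τ.image Prod.fst) r1) hτ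
    refine ⟨r2, (hr2.trans hr1).trans hr, hl B σ', IsFF_hl hB h5 _,
      down_Extends _ _ (hr2.trans hr1) (Extends_of h2 (h3.trans h6)),
      forr_right (down_fFin _) (fFin_intro (max N M) fun r' hr' k hk h8 => ?_)⟩
    obtain ⟨r3, hr3, h9⟩ := exists_of_meets
      (N := {p | ∀ β ∈ τ.image Prod.fst, p ∈ B β k})
      (fun _ _ hq h β hβ => down_B hB _ _ hq (h β hβ)) (h7 r' hr' k (le_of_max_le_right hk) h8.1)
    obtain ⟨r4, hr4, h10⟩ := Z_of_comb hB τ h6 r3 (down_comb _ _ hr3 h8.1)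
      fun y hy => h9 y.1 (Finset.mem_image_of_mem _ hy)
    exact h4 r4 (((hr4.trans hr3).trans hr').trans hr2) k (le_of_max_le_left hk)
      ⟨h10, down_mem x k (hr4.trans hr3) h8.2⟩
  · push Not at hA
    let φ : ℕ → Set (PP Λ) := fun k =>
      {p | p ∈ mem x k ∨ ∃ a ∈ σ, p ∈ B a.1 k ∧ ((a.1, 2 * k + 1), !a.2) ∈ p.s}
    have hφ : ∀ k, Down (φ k) := by
      rintro k p q hq (h | ⟨a, ha, h, h'⟩)
      · exact Or.inl (down_mem x k hq h)
      · exact Or.inr ⟨a, ha, down_B hB _ _ hq h, hq h'⟩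
    have H : Meets B r φ := by
      intro τ hτ N q' hq'
      by_cases hc : ∃ a ∈ σ, (a.1, !a.2) ∈ τ
      · obtain ⟨a, ha, h3⟩ := hc
        obtain ⟨r', hr', k, hk, h4⟩ := inv hB τ hτ q' N
        exact ⟨r', hr', k, hk, h4, Or.inr ⟨a, ha, h4 _ h3⟩⟩
      · push Not at hc
        have hcross : ∀ a ∈ σ, ∀ b ∈ τ, a.1 = b.1 → a.2 = b.2 := by
          intro a ha b hb hab
          by_contra hne
          refine hc a ha ?_
          have : b = (a.1, !a.2) := Prod.ext hab.symm (by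
            revert hne
            cases a.2 <;> cases b.2 <;> simp)
          rwa [← this]
        have hcons : Cons (σ ∪ τ) := by
          intro a ha b hb hab
          rcases Finset.mem_union.1 ha with ha | ha <;> rcases Finset.mem_union.1 hb with hb | hb
          · exact hσ a ha b hb hab
          · exact hcross a ha b hb hab
          · exact (hcross b hb a ha hab.symm).symm
          · exact hτ a ha b hb hab
        obtain ⟨r', hr', k, hk, h4, h5⟩ := hA q' hq' (σ ∪ τ) hcons Finset.subset_union_left N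
        exact ⟨r', hr', k, hk, fun a ha => h4 a (Finset.mem_union_right _ ha), Or.inl h5⟩
    obtain ⟨r2, hr2, σ', h5, h6, M, h7⟩ := fil hB hT H hσ
    refine ⟨r2, hr2.trans hr, hl B σ', IsFF_hl hB h5 _,
      down_Extends _ _ hr2 (Extends_of h2 h6),
      forr_left (down_fFin _) (fFin_intro M fun r' hr' k hk h8 => ?_)⟩
    obtain ⟨r3, hr3, h9 | ⟨a, ha, h9, h10⟩⟩ := exists_of_meets (hφ k) (h7 r' hr' k hk h8.1)
    · exact h8.2 r3 hr3 h9
    · have := comb_elim hB (down_comb _ _ hr3 h8.1) (h6 ha) h9 h10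
      simp at this

theorem pset (p : PP Λ) : p ∈ PSet (Fam B) := by
  refine fun A => fimp_intro fun q _ h => ?_
  obtain ⟨β, -, h2⟩ := homog hB hT (fun j k => {p | ∀ i < j, p ∈ mem (A i) k}) ∅ q (by
    intro m τ hτ N q' hq'
    obtain ⟨r, hr, k, hk, h3, h4⟩ := meets_of_InFil hB h m τ hτ N q' hq'
    exact ⟨r, hr, k, hk, h3, fun j hj i hi => h4 i (lt_of_lt_of_le hi hj)⟩)
  refine mem_fex.2 fun q' hq' => ⟨q', le_rfl, B β, InFil_B hB hT β q', fun i =>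
    mem_fFin.2 fun q1 hq1 => ?_⟩
  obtain ⟨r, hr, j, hj, h3⟩ := d_inf β q1 (i + 1)
  refine ⟨r, hr, j + 1, fun r' hr' k hk h4 => ?_⟩
  obtain ⟨r1, hr1, h5⟩ := exists_of_meets (down_B hB β k) h4.1
  have h6 : r1 ≤ r := hr1.trans hr'
  obtain ⟨r2, hr2, h7⟩ := exists_of_meets (N := {p | ∀ i < j, p ∈ mem (A i) k})
    (fun _ _ hq h i hi => down_mem _ _ hq (h i hi))
    (h2 r1 (((h6.trans hr).trans hq1).trans hq') j k hk (h6 h3) h5)
  exact h4.2 r2 (hr2.trans hr1) (h7 i hj)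

theorem qset (p : PP Λ) : p ∈ QSet (Fam B) := by
  refine fun J => fimp_intro fun q _ h => ?_
  obtain ⟨hfin, hcov, hdis⟩ := h
  let R : ℕ → ℕ → Set (PP Λ) := fun j k =>
    {p | ∀ i, ∀ q ≤ p, q ∈ mem (J i) j → q ∉ mem (J i) k}
  have hR : ∀ j k, Down (R j k) := fun j k _ _ hq h i r hr => h i r (hr.trans hq)
  have key : ∀ m, ∀ q' ≤ q, ∃ r ≤ q', ∃ M, ∀ k, M ≤ k → ∀ j < m, r ∈ R j k := by
    intro m q' hq'
    induction m with
    | zero => exact ⟨q', le_rfl, 0, fun _ _ j hj => absurd hj (Nat.not_lt_zero _)⟩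
    | succ m ih =>
      obtain ⟨r, hr, M, h1⟩ := ih
      obtain ⟨r1, hr1, i, h2⟩ := mem_fex.1 (hcov m) r (hr.trans hq')
      obtain ⟨r2, hr2, M', h3⟩ := mem_fFin.1 (hfin i) r1 ((hr1.trans hr).trans hq')
      refine ⟨r2, (hr2.trans hr1).trans hr, max M M', fun k hk j hj => ?_⟩
      rcases Nat.lt_succ_iff_lt_or_eq.1 hj with hj | rfl
      · exact hR j k (hr2.trans hr1) (h1 k (le_of_max_le_left hk) j hj)
      · intro i' r3 hr3 h4
        obtain ⟨_, _, h5⟩ := mem_fimp.1 (hdis i i' j) r3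
          ((((hr3.trans hr2).trans hr1).trans hr).trans hq')
          ⟨down_mem _ _ (hr3.trans hr2) h2, h4⟩
        have h6 : i = i' := h5
        subst h6
        exact h3 r3 hr3 k (le_of_max_le_right hk)
  obtain ⟨β, -, h2⟩ := homog hB hT R ∅ q (by
    intro m τ hτ N q' hq'
    obtain ⟨r, hr, M, h3⟩ := key (m + 1) q' hq'
    obtain ⟨r', hr', k, hk, h4⟩ := inv hB τ hτ r (max N M)
    exact ⟨r', hr'.trans hr, k, le_of_max_le_left hk, h4, fun j hj =>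
      hR j k hr' (h3 k (le_of_max_le_right hk) j (Nat.lt_succ_of_le hj))⟩)
  have aux : ∀ i m n, m < n → ∀ r ≤ q, r ∈ mem (B β) m → r ∈ mem (B β) n → r ∈ mem (J i) m →
      r ∈ mem (J i) n → False := by
    intro i m n hmn r hr h3 h4 h5 h6
    obtain ⟨r1, hr1, h7⟩ := exists_of_meets (down_B hB β m) h3
    obtain ⟨r2, hr2, h8⟩ := exists_of_meets (down_B hB β n) (down_mem _ _ hr1 h4)
    obtain ⟨r3, hr3, h9⟩ := exists_of_meets (hR m n)
      (h2 r2 ((hr2.trans hr1).trans hr) m n hmn (hr2 (B_bit hB h7)) h8)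
    have h10 : r3 ≤ r := (hr3.trans hr2).trans hr1
    exact h9 i r3 le_rfl (down_mem _ _ h10 h5) (down_mem _ _ h10 h6)
  refine mem_fex.2 fun q' hq' => ⟨q', le_rfl, B β, InFil_B hB hT β q', fun i m n =>
    fimp_intro fun r hr h3 => ?_⟩
  obtain ⟨⟨h3, h4⟩, h5, h6⟩ := h3
  rcases lt_trichotomy m n with h | h | h
  · exact (aux i m n h r (hr.trans hq') h3 h4 h5 h6).elim
  · exact h
  · exact (aux i n m h r (hr.trans hq') h4 h3 h6 h5).elim

theorem selective (p : PP Λ) : p ∈ Selective (Fam B) :=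
  ⟨independent hB p, denselyMaximal hB hT p, pset hB hT p, qset hB hT p⟩

end Pool.Agent.H252Z.Sel
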